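import Pool.Agent.W5h63.WC.Def

/-! Calculus of partial derivatives and the vorticity equation. -/

namespace Pool.Agent.W5h63.WC

open Set Filter Topology

lemma pd_contDiffOn {O : Set E} (hO : IsOpen O) {F : E → ℝ} {n : ℕ} (h : ContDiffOn ℝ ((n + 1 : ℕ) : ℕ∞) F O)
    (e : E) : ContDiffOn ℝ (n : ℕ∞) (pd e F) O := by
  have h1 : ContDiffOn ℝ (n : ℕ∞) (fun z => fderiv ℝ F z) O :=
    h.fderiv_of_isOpen hO (by norm_cast)
  exact h1.clm_apply contDiffOn_const

lemma diffAt {O : Set E} (hO : IsOpen O) {F : E → ℝ} {n : ℕ} (hn : n ≠ 0)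
    (h : ContDiffOn ℝ (n : ℕ∞) F O) {z : E} (hz : z ∈ O) : DifferentiableAt ℝ F z := by
  have h1 : ContDiffAt ℝ (n : ℕ∞) F z := h.contDiffAt (hO.mem_nhds hz)
  exact h1.differentiableAt (by exact_mod_cast hn)

lemma pd_comm {O : Set E} (hO : IsOpen O) {F : E → ℝ} (h : ContDiffOn ℝ ((2 : ℕ) : ℕ∞) F O)
    {z : E} (hz : z ∈ O) (e e' : E) : pd e (pd e' F) z = pd e' (pd e F) z := by
  have h1 : ContDiffAt ℝ ((2 : ℕ) : ℕ∞) F z := h.contDiffAt (hO.mem_nhds hz)
  have hs : IsSymmSndFDerivAt ℝ F z := h1.isSymmSndFDerivAt (by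
    simp only [minSmoothness_of_isRCLikeNormedField]; norm_cast)
  have hd : DifferentiableAt ℝ (fun z => fderiv ℝ F z) z := by
    have h2 : ContDiffOn ℝ ((1 : ℕ) : ℕ∞) (fun z => fderiv ℝ F z) O :=
      h.fderiv_of_isOpen hO (by norm_cast)
    exact (h2.contDiffAt (hO.mem_nhds hz)).differentiableAt (by norm_num)
  have key : ∀ a b : E, pd a (pd b F) z = fderiv ℝ (fderiv ℝ F) z a b := by
    intro a b
    unfold pd
    rw [fderiv_clm_apply hd (differentiableAt_const b)]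
    simp
  rw [key, key]
  exact hs e e'

lemma pd_add' {F G : E → ℝ} {z : E} (e : E) (hF : DifferentiableAt ℝ F z) (hG : DifferentiableAt ℝ G z) :
    pd e (fun z => F z + G z) z = pd e F z + pd e G z := by
  unfold pd
  rw [fderiv_fun_add hF hG]; rfl

lemma pd_sub' {F G : E → ℝ} {z : E} (e : E) (hF : DifferentiableAt ℝ F z) (hG : DifferentiableAt ℝ G z) :
    pd e (fun z => F z - G z) z = pd e F z - pd e G z := by
  unfold pd
  rw [fderiv_fun_sub hF hG]; rfl

lemma pd_mul' {F G : E → ℝ} {z : E} (e : E) (hF : DifferentiableAt ℝ F z) (hG : DifferentiableAt ℝ G z) :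
    pd e (fun z => F z * G z) z = F z * pd e G z + G z * pd e F z := by
  unfold pd
  rw [fderiv_fun_mul hF hG]; rfl

lemma pd_congr {O : Set E} (hO : IsOpen O) {F G : E → ℝ} (h : ∀ z ∈ O, F z = G z) {z : E} (hz : z ∈ O)
    (e : E) : pd e F z = pd e G z := by
  unfold pd
  have : F =ᶠ[𝓝 z] G := by
    filter_upwards [hO.mem_nhds hz] with a ha using h a ha
  rw [this.fderiv_eq]

/-- `F` is differentiable at `z` with partial derivative `c` in the direction `e`. -/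
def HasPd (e : E) (F : E → ℝ) (z : E) (c : ℝ) : Prop := DifferentiableAt ℝ F z ∧ pd e F z = c

lemma HasPd.add {e : E} {F G : E → ℝ} {z : E} {a b : ℝ} (h : HasPd e F z a) (h' : HasPd e G z b) :
    HasPd e (fun z => F z + G z) z (a + b) :=
  ⟨h.1.fun_add h'.1, by rw [pd_add' e h.1 h'.1, h.2, h'.2]⟩

lemma HasPd.sub {e : E} {F G : E → ℝ} {z : E} {a b : ℝ} (h : HasPd e F z a) (h' : HasPd e G z b) :
    HasPd e (fun z => F z - G z) z (a - b) :=
  ⟨h.1.fun_sub h'.1, by rw [pd_sub' e h.1 h'.1, h.2, h'.2]⟩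

lemma HasPd.mul {e : E} {F G : E → ℝ} {z : E} {a b : ℝ} (h : HasPd e F z a) (h' : HasPd e G z b) :
    HasPd e (fun z => F z * G z) z (F z * b + G z * a) :=
  ⟨h.1.fun_mul h'.1, by rw [pd_mul' e h.1 h'.1, h.2, h'.2]⟩

/-- The equation of the component `v_x - u_y` of the vorticity. -/
theorem vorticity_eq {O : Set E} (hO : IsOpen O) {u s v p : E → ℝ} (h : IsNS O u s v p) :
    ContDiffOn ℝ ((2 : ℕ) : ℕ∞) (vort u v) O ∧ ∀ z ∈ O, pd et (vort u v) z
      + u z * pd ex (vort u v) z + s z * pd es (vort u v) z + v z * pd ey (vort u v) z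
      = lap (vort u v) z + stretch u s v z := by
  have su : ContDiffOn ℝ ((3 : ℕ) : ℕ∞) u O := by exact_mod_cast h.smooth_u
  have ss : ContDiffOn ℝ ((3 : ℕ) : ℕ∞) s O := by exact_mod_cast h.smooth_s
  have sv : ContDiffOn ℝ ((3 : ℕ) : ℕ∞) v O := by exact_mod_cast h.smooth_v
  have sp : ContDiffOn ℝ ((2 : ℕ) : ℕ∞) p O := by exact_mod_cast h.smooth_p
  have su2 : ContDiffOn ℝ ((2 : ℕ) : ℕ∞) u O := su.of_le (by norm_cast)
  have sv2 : ContDiffOn ℝ ((2 : ℕ) : ℕ∞) v O := sv.of_le (by norm_cast)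
  have u1 : ∀ e, ContDiffOn ℝ ((2 : ℕ) : ℕ∞) (pd e u) O := fun e => pd_contDiffOn hO su e
  have s1 : ∀ e, ContDiffOn ℝ ((2 : ℕ) : ℕ∞) (pd e s) O := fun e => pd_contDiffOn hO ss e
  have v1 : ∀ e, ContDiffOn ℝ ((2 : ℕ) : ℕ∞) (pd e v) O := fun e => pd_contDiffOn hO sv e
  have u2 : ∀ e e', ContDiffOn ℝ ((1 : ℕ) : ℕ∞) (pd e (pd e' u)) O := fun e e' =>
    pd_contDiffOn hO (u1 e') e
  have v2 : ∀ e e', ContDiffOn ℝ ((1 : ℕ) : ℕ∞) (pd e (pd e' v)) O := fun e e' =>
    pd_contDiffOn hO (v1 e') e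
  have p1 : ∀ e, ContDiffOn ℝ ((1 : ℕ) : ℕ∞) (pd e p) O := fun e => pd_contDiffOn hO sp e
  have hwc : ContDiffOn ℝ ((2 : ℕ) : ℕ∞) (vort u v) O := (v1 ex).sub (u1 ey)
  refine ⟨hwc, ?_⟩
  -- derivatives of w
  have w1 : ∀ e, ∀ z ∈ O, pd e (vort u v) z = pd e (pd ex v) z - pd e (pd ey u) z := by
    intro e z hz
    exact pd_sub' e (diffAt hO (by norm_num) (v1 ex) hz)
      (diffAt hO (by norm_num) (u1 ey) hz)
  have w2 : ∀ e, ∀ z ∈ O, pd e (pd e (vort u v)) z
      = pd e (pd e (pd ex v)) z - pd e (pd e (pd ey u)) z := by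
    intro e z hz
    rw [pd_congr hO (w1 e) hz e, pd_sub' e (diffAt hO (by norm_num) (v2 e ex) hz)
      (diffAt hO (by norm_num) (u2 e ey) hz)]
  intro z hz
  have du := diffAt hO (by norm_num) su hz
  have ds := diffAt hO (by norm_num) ss hz
  have dv := diffAt hO (by norm_num) sv hz
  have du1 : ∀ e, DifferentiableAt ℝ (pd e u) z := fun e => diffAt hO (by norm_num) (u1 e) hz
  have dv1 : ∀ e, DifferentiableAt ℝ (pd e v) z := fun e => diffAt hO (by norm_num) (v1 e) hz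
  have du2 : ∀ e e', DifferentiableAt ℝ (pd e (pd e' u)) z := fun e e' =>
    diffAt hO (by norm_num) (u2 e e') hz
  have dv2 : ∀ e e', DifferentiableAt ℝ (pd e (pd e' v)) z := fun e e' =>
    diffAt hO (by norm_num) (v2 e e') hz
  have dp1 : ∀ e, DifferentiableAt ℝ (pd e p) z := fun e => diffAt hO (by norm_num) (p1 e) hz
  -- differentiate the first equation in y
  have e1 : pd ey (fun z => pd et u z + u z * pd ex u z + s z * pd es u z + v z * pd ey u z
    - (pd ex (pd ex u) z + pd es (pd es u) z + pd ey (pd ey u) z) + pd ex p z) z = 0 :=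
    (pd_congr hO (G := fun _ => 0) h.eq_u hz ey).trans (by simp [pd])
  have e2 : pd ex (fun z => pd et v z + u z * pd ex v z + s z * pd es v z + v z * pd ey v z
    - (pd ex (pd ex v) z + pd es (pd es v) z + pd ey (pd ey v) z) + pd ey p z) z = 0 :=
    (pd_congr hO (G := fun _ => 0) h.eq_v hz ex).trans (by simp [pd])
  have k : ∀ {F : E → ℝ} (e : E), DifferentiableAt ℝ F z → HasPd e F z (pd e F z) :=
    fun e hF => ⟨hF, rfl⟩
  have f1 := (((((k ey (du1 et)).add ((k ey du).mul (k ey (du1 ex)))).add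
    ((k ey ds).mul (k ey (du1 es)))).add
    ((k ey dv).mul (k ey (du1 ey)))).sub (((k ey (du2 ex ex)).add (k ey (du2 es es))).add
      (k ey (du2 ey ey)))).add (k ey (dp1 ex))
  have f2 := (((((k ex (dv1 et)).add ((k ex du).mul (k ex (dv1 ex)))).add
    ((k ex ds).mul (k ex (dv1 es)))).add
    ((k ex dv).mul (k ex (dv1 ey)))).sub (((k ex (dv2 ex ex)).add (k ex (dv2 es es))).add
      (k ex (dv2 ey ey)))).add (k ex (dp1 ey))
  rw [f1.2] at e1
  rw [f2.2] at e2
  -- commutations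
  have c1 : pd et (pd ex v) z = pd ex (pd et v) z := pd_comm hO sv2 hz et ex
  have c2 : pd et (pd ey u) z = pd ey (pd et u) z := pd_comm hO su2 hz et ey
  have c3 : pd ex (pd ey u) z = pd ey (pd ex u) z := pd_comm hO su2 hz ex ey
  have c3' : pd es (pd ey u) z = pd ey (pd es u) z := pd_comm hO su2 hz es ey
  have c4 : pd ey (pd ex v) z = pd ex (pd ey v) z := pd_comm hO sv2 hz ey ex
  have c4' : pd es (pd ex v) z = pd ex (pd es v) z := pd_comm hO sv2 hz es ex
  have c5 : pd ex (pd ex (pd ey u)) z = pd ey (pd ex (pd ex u)) z := by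
    have q1 : ∀ z ∈ O, pd ex (pd ey u) z = pd ey (pd ex u) z := fun z hz => pd_comm hO su2 hz ex ey
    rw [pd_congr hO q1 hz ex]
    exact pd_comm hO (u1 ex) hz ex ey
  have c5' : pd es (pd es (pd ey u)) z = pd ey (pd es (pd es u)) z := by
    have q1 : ∀ z ∈ O, pd es (pd ey u) z = pd ey (pd es u) z := fun z hz => pd_comm hO su2 hz es ey
    rw [pd_congr hO q1 hz es]
    exact pd_comm hO (u1 es) hz es ey
  have c6 : pd ey (pd ey (pd ex v)) z = pd ex (pd ey (pd ey v)) z := by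
    have q1 : ∀ z ∈ O, pd ey (pd ex v) z = pd ex (pd ey v) z := fun z hz => pd_comm hO sv2 hz ey ex
    rw [pd_congr hO q1 hz ey]
    exact pd_comm hO (v1 ey) hz ey ex
  have c6' : pd es (pd es (pd ex v)) z = pd ex (pd es (pd es v)) z := by
    have q1 : ∀ z ∈ O, pd es (pd ex v) z = pd ex (pd es v) z := fun z hz => pd_comm hO sv2 hz es ex
    rw [pd_congr hO q1 hz es]
    exact pd_comm hO (v1 es) hz es ex
  have c7 : pd ex (pd ey p) z = pd ey (pd ex p) z := pd_comm hO sp hz ex ey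
  have hdiv := h.div z hz
  unfold lap stretch
  rw [w1 et z hz, w1 ex z hz, w1 es z hz, w1 ey z hz, w2 ex z hz, w2 es z hz, w2 ey z hz,
    c1, c2, c3, c3', c4, c4', c5, c5', c6, c6']
  rw [c7] at e2
  unfold vort
  linear_combination e2 - e1 - (pd ex v z - pd ey u z) * hdiv

end Pool.Agent.W5h63.WC
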