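import Pool.Agent.W5h63.WC.A1

/-! The barrier. -/

namespace Pool.Agent.W5h63.WC

open Set Filter Topology

lemma snd_nonneg {φ φ1 : ℝ → ℝ} {x0 c : ℝ} (h1 : ∀ᶠ x in 𝓝 x0, HasDerivAt φ (φ1 x) x)
    (h2 : HasDerivAt φ1 c x0) (hm : IsLocalMin φ x0) : φ1 x0 = 0 ∧ 0 ≤ c := by
  have hd : deriv φ =ᶠ[𝓝 x0] φ1 := by
    filter_upwards [h1] with x hx using hx.deriv
  have h0 : HasDerivAt φ (φ1 x0) x0 := h1.self_of_nhds
  have hz : φ1 x0 = 0 := hm.hasDerivAt_eq_zero h0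
  refine ⟨hz, ?_⟩
  by_contra hc
  push Not at hc
  have hdd : deriv (deriv φ) x0 = c := by
    rw [hd.deriv_eq]; exact h2.deriv
  have hcont : ContinuousAt φ x0 := h0.continuousAt
  have h3 : deriv φ x0 = 0 := by rw [h0.deriv, hz]
  have hmax : IsLocalMax φ x0 := isLocalMax_of_deriv_deriv_neg (by rw [hdd]; exact hc) h3 hcont
  have heq : φ =ᶠ[𝓝 x0] fun _ => φ x0 := by
    filter_upwards [hm, hmax] with x h4 h5 using le_antisymm h5 h4
  have h6 : deriv φ =ᶠ[𝓝 x0] fun _ => 0 := by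
    have := heq.deriv
    simpa using this
  have h7 : deriv (deriv φ) x0 = 0 := by
    rw [h6.deriv_eq]; simp
  rw [hdd] at h7
  linarith

lemma left_nonpos {φ : ℝ → ℝ} {t0 c : ℝ} (h : HasDerivAt φ c t0)
    (hm : ∀ᶠ t in 𝓝[<] t0, φ t0 ≤ φ t) : c ≤ 0 := by
  have h1 : Tendsto (slope φ t0) (𝓝[<] t0) (𝓝 c) :=
    (hasDerivAt_iff_tendsto_slope.1 h).mono_left (nhdsWithin_mono _ (fun x hx => ne_of_lt hx))
  refine le_of_tendsto h1 ?_
  filter_upwards [hm, self_mem_nhdsWithin] with t ht htt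
  have h2 : t < t0 := htt
  rw [slope_def_field]
  exact div_nonpos_of_nonneg_of_nonpos (by linarith) (by linarith)

lemma slice_t {F : E → ℝ} {t x s y : ℝ} (h : DifferentiableAt ℝ F (t, x, s, y)) :
    HasDerivAt (fun r => F (r, x, s, y)) (pd et F (t, x, s, y)) t := by
  have h1 : HasDerivAt (fun r : ℝ => ((r, x, s, y) : E)) et t :=
    (hasDerivAt_id t).prodMk ((hasDerivAt_const t x).prodMk
      ((hasDerivAt_const t s).prodMk (hasDerivAt_const t y)))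
  exact h.hasFDerivAt.comp_hasDerivAt t h1

lemma slice_x {F : E → ℝ} {t x s y : ℝ} (h : DifferentiableAt ℝ F (t, x, s, y)) :
    HasDerivAt (fun r => F (t, r, s, y)) (pd ex F (t, x, s, y)) x := by
  have h1 : HasDerivAt (fun r : ℝ => ((t, r, s, y) : E)) ex x :=
    (hasDerivAt_const x t).prodMk ((hasDerivAt_id x).prodMk
      ((hasDerivAt_const x s).prodMk (hasDerivAt_const x y)))
  exact h.hasFDerivAt.comp_hasDerivAt x h1

lemma slice_s {F : E → ℝ} {t x s y : ℝ} (h : DifferentiableAt ℝ F (t, x, s, y)) :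
    HasDerivAt (fun r => F (t, x, r, y)) (pd es F (t, x, s, y)) s := by
  have h1 : HasDerivAt (fun r : ℝ => ((t, x, r, y) : E)) es s :=
    (hasDerivAt_const s t).prodMk ((hasDerivAt_const s x).prodMk
      ((hasDerivAt_id s).prodMk (hasDerivAt_const s y)))
  exact h.hasFDerivAt.comp_hasDerivAt s h1

lemma slice_y {F : E → ℝ} {t x s y : ℝ} (h : DifferentiableAt ℝ F (t, x, s, y)) :
    HasDerivAt (fun r => F (t, x, s, r)) (pd ey F (t, x, s, y)) y := by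
  have h1 : HasDerivAt (fun r : ℝ => ((t, x, s, r) : E)) ey y :=
    (hasDerivAt_const y t).prodMk ((hasDerivAt_const y x).prodMk
      ((hasDerivAt_const y s).prodMk (hasDerivAt_id y)))
  exact h.hasFDerivAt.comp_hasDerivAt y h1

lemma pslice_x {f : P → ℝ} {x s y : ℝ} (h : DifferentiableAt ℝ f (x, s, y)) :
    HasDerivAt (fun r => f (r, s, y)) (qd qx f (x, s, y)) x := by
  have h1 : HasDerivAt (fun r : ℝ => ((r, s, y) : P)) qx x :=
    (hasDerivAt_id x).prodMk ((hasDerivAt_const x s).prodMk (hasDerivAt_const x y))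
  exact h.hasFDerivAt.comp_hasDerivAt x h1

lemma pslice_s {f : P → ℝ} {x s y : ℝ} (h : DifferentiableAt ℝ f (x, s, y)) :
    HasDerivAt (fun r => f (x, r, y)) (qd qs f (x, s, y)) s := by
  have h1 : HasDerivAt (fun r : ℝ => ((x, r, y) : P)) qs s :=
    (hasDerivAt_const s x).prodMk ((hasDerivAt_id s).prodMk (hasDerivAt_const s y))
  exact h.hasFDerivAt.comp_hasDerivAt s h1

lemma pslice_y {f : P → ℝ} {x s y : ℝ} (h : DifferentiableAt ℝ f (x, s, y)) :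
    HasDerivAt (fun r => f (x, s, r)) (qd qy f (x, s, y)) y := by
  have h1 : HasDerivAt (fun r : ℝ => ((x, s, r) : P)) qy y :=
    (hasDerivAt_const y x).prodMk ((hasDerivAt_const y s).prodMk (hasDerivAt_id y))
  exact h.hasFDerivAt.comp_hasDerivAt y h1

/-- The parameters of the barrier. -/
structure Par where
  lam : ℝ
  ka : ℝ
  A1 : ℝ
  A3 : ℝ
  r : ℝ
  X0 : ℝ
  δ : ℝ
  L : ℝ → ℝ
  M : ℝ → ℝ

variable (q : Par)

/-- The moving box: distances from the wall, and squared radius. -/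
noncomputable def lo (t : ℝ) : ℝ := q.r / 4 + 16 * q.r ^ 2 * q.M t
noncomputable def hi (t : ℝ) : ℝ := 4 * q.r - 16 * q.r ^ 2 * q.M t
noncomputable def Xb (t : ℝ) : ℝ := q.X0 - 8 * q.r * q.δ * q.L t

noncomputable def G1 (t D : ℝ) : ℝ := Real.exp (q.A1 * t - q.lam * (D - lo q t))
noncomputable def G2 (t D : ℝ) : ℝ := Real.exp (q.A1 * t - q.lam * (hi q t - D))
noncomputable def G3 (t R : ℝ) : ℝ := Real.exp (q.A3 * t - q.ka * (Xb q t - R))

/-- The sum of the three barriers (`D` distance, `R` squared distance to the centre). -/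
noncomputable def Gs (t D R : ℝ) : ℝ := G1 q t D + G2 q t D + G3 q t R

variable {q}

lemma Gs_t {t D R l m : ℝ} (hL : HasDerivAt q.L l t) (hM : HasDerivAt q.M m t) :
    HasDerivAt (fun t => Gs q t D R)
      (G1 q t D * (q.A1 + q.lam * (16 * q.r ^ 2 * m))
       + G2 q t D * (q.A1 + q.lam * (16 * q.r ^ 2 * m))
       + G3 q t R * (q.A3 + q.ka * (8 * q.r * q.δ * l))) t := by
  have hlo : HasDerivAt (lo q) (16 * q.r ^ 2 * m) t :=
    (hM.const_mul (16 * q.r ^ 2)).const_add (q.r / 4)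
  have hhi : HasDerivAt (hi q) (-(16 * q.r ^ 2 * m)) t :=
    (hM.const_mul (16 * q.r ^ 2)).const_sub (4 * q.r)
  have hX : HasDerivAt (Xb q) (-(8 * q.r * q.δ * l)) t :=
    (hL.const_mul (8 * q.r * q.δ)).const_sub q.X0
  have hid := hasDerivAt_id t
  have g1 : HasDerivAt (fun t => G1 q t D)
      (G1 q t D * (q.A1 * 1 - q.lam * (-(16 * q.r ^ 2 * m)))) t :=
    ((hid.const_mul q.A1).sub ((hlo.const_sub D).const_mul q.lam)).exp
  have g2 : HasDerivAt (fun t => G2 q t D)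
      (G2 q t D * (q.A1 * 1 - q.lam * (-(16 * q.r ^ 2 * m)))) t :=
    ((hid.const_mul q.A1).sub ((hhi.sub_const D).const_mul q.lam)).exp
  have g3 : HasDerivAt (fun t => G3 q t R)
      (G3 q t R * (q.A3 * 1 - q.ka * (-(8 * q.r * q.δ * l)))) t :=
    ((hid.const_mul q.A3).sub ((hX.sub_const R).const_mul q.ka)).exp
  refine ((g1.add g2).add g3).congr_deriv ?_
  ring

/-- The derivative of the sum of the barriers along a line in space: `D'`, `R'` the derivatives of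
the distance function and of the squared distance to the centre. -/
noncomputable def Gd (q : Par) (t D R D' R' : ℝ) : ℝ :=
  -(q.lam * D') * G1 q t D + q.lam * D' * G2 q t D + q.ka * R' * G3 q t R

noncomputable def Gdd (q : Par) (t D R D' R' D'' R'' : ℝ) : ℝ :=
  ((q.lam * D') ^ 2 - q.lam * D'') * G1 q t D
    + ((q.lam * D') ^ 2 + q.lam * D'') * G2 q t D
    + ((q.ka * R') ^ 2 + q.ka * R'') * G3 q t R

lemma g1_s {D : ℝ → ℝ} {D' t s : ℝ} (hD : HasDerivAt D D' s) :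
    HasDerivAt (fun s => G1 q t (D s)) (-(q.lam * D') * G1 q t (D s)) s := by
  have := (((hD.sub_const (lo q t)).const_mul q.lam).const_sub (q.A1 * t)).exp
  refine this.congr_deriv ?_
  unfold G1; ring

lemma g2_s {D : ℝ → ℝ} {D' t s : ℝ} (hD : HasDerivAt D D' s) :
    HasDerivAt (fun s => G2 q t (D s)) (q.lam * D' * G2 q t (D s)) s := by
  have := (((hD.const_sub (hi q t)).const_mul q.lam).const_sub (q.A1 * t)).exp
  refine this.congr_deriv ?_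
  unfold G2; ring

lemma g3_s {R : ℝ → ℝ} {R' t s : ℝ} (hR : HasDerivAt R R' s) :
    HasDerivAt (fun s => G3 q t (R s)) (q.ka * R' * G3 q t (R s)) s := by
  have := (((hR.const_sub (Xb q t)).const_mul q.ka).const_sub (q.A3 * t)).exp
  refine this.congr_deriv ?_
  unfold G3; ring

lemma Gs_s {D R : ℝ → ℝ} {D' R' t s : ℝ} (hD : HasDerivAt D D' s) (hR : HasDerivAt R R' s) :
    HasDerivAt (fun s => Gs q t (D s) (R s)) (Gd q t (D s) (R s) D' R') s :=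
  ((g1_s hD).add (g2_s hD)).add (g3_s hR)

lemma Gd_s {D R D1 R1 : ℝ → ℝ} {D'' R'' t s : ℝ} (hD : HasDerivAt D (D1 s) s)
    (hR : HasDerivAt R (R1 s) s) (hD1 : HasDerivAt D1 D'' s) (hR1 : HasDerivAt R1 R'' s) :
    HasDerivAt (fun s => Gd q t (D s) (R s) (D1 s) (R1 s))
      (Gdd q t (D s) (R s) (D1 s) (R1 s) D'' R'') s := by
  have a1 := ((hD1.const_mul q.lam).neg).mul (g1_s (q := q) (t := t) hD)
  have a2 := (hD1.const_mul q.lam).mul (g2_s (q := q) (t := t) hD)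
  have a3 := (hR1.const_mul q.ka).mul (g3_s (q := q) (t := t) hR)
  refine ((a1.add a2).add a3).congr_deriv ?_
  unfold Gdd; simp only [Pi.neg_apply]; ring

lemma cauchy3 (a b c x y z : ℝ) :
    (a * x + b * y + c * z) ^ 2 ≤ (a ^ 2 + b ^ 2 + c ^ 2) * (x ^ 2 + y ^ 2 + z ^ 2) := by
  nlinarith [sq_nonneg (a * y - b * x), sq_nonneg (a * z - c * x), sq_nonneg (b * z - c * y)]

/-- The sum of the barriers is a supersolution where `|(u,s,v)| ≤ l D` and the normal velocity is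
at most `m D²`. -/
lemma super {t D R Dx Ds Dy Rx Rs Ry Dl l m u s v : ℝ} (hlam : 0 ≤ q.lam) (hka : 0 ≤ q.ka)
    (hδ : 0 < q.δ) (hl : 0 ≤ l) (hm : 0 ≤ m)
    (hD : 0 < D) (hDr : D ≤ 4 * q.r) (huv : u ^ 2 + s ^ 2 + v ^ 2 ≤ (l * D) ^ 2)
    (hn : |u * Dx + s * Ds + v * Dy| ≤ m * D ^ 2)
    (hg : Dx ^ 2 + Ds ^ 2 + Dy ^ 2 ≤ 1) (hR : Rx ^ 2 + Rs ^ 2 + Ry ^ 2 ≤ 4 * q.δ ^ 2)
    (hDl : |Dl| ≤ 1 / q.δ)
    (hA1 : q.lam ^ 2 + q.lam / q.δ ≤ q.A1)
    (hA3 : 4 * q.ka ^ 2 * q.δ ^ 2 + 6 * q.ka ≤ q.A3) {Dxx Dss Dyy Rxx Rss Ryy : ℝ}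
    (hDD : Dxx + Dss + Dyy = Dl) (hRR : Rxx + Rss + Ryy = 6) :
    0 ≤ (G1 q t D * (q.A1 + q.lam * (16 * q.r ^ 2 * m))
       + G2 q t D * (q.A1 + q.lam * (16 * q.r ^ 2 * m))
       + G3 q t R * (q.A3 + q.ka * (8 * q.r * q.δ * l)))
      + u * Gd q t D R Dx Rx + s * Gd q t D R Ds Rs + v * Gd q t D R Dy Ry
      - Gdd q t D R Dx Rx Dxx Rxx - Gdd q t D R Ds Rs Dss Rss - Gdd q t D R Dy Ry Dyy Ryy := by
  have p1 : 0 < G1 q t D := Real.exp_pos _
  have p2 : 0 < G2 q t D := Real.exp_pos _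
  have p3 : 0 < G3 q t R := Real.exp_pos _
  unfold Gd Gdd
  have hlD : 0 ≤ l * D := mul_nonneg hl hD.le
  have hm16 : m * D ^ 2 ≤ 16 * q.r ^ 2 * m := by
    have : D ^ 2 ≤ (4 * q.r) ^ 2 := pow_le_pow_left₀ hD.le hDr 2
    nlinarith
  have dr' : |u * Rx + s * Rs + v * Ry| ≤ 2 * q.δ * (l * D) := by
    apply abs_le_of_sq_le_sq _ (by positivity)
    calc (u * Rx + s * Rs + v * Ry) ^ 2
        ≤ (u ^ 2 + s ^ 2 + v ^ 2) * (Rx ^ 2 + Rs ^ 2 + Ry ^ 2) := cauchy3 _ _ _ _ _ _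
      _ ≤ (l * D) ^ 2 * (4 * q.δ ^ 2) := by
          apply mul_le_mul huv hR (by positivity) (by positivity)
      _ = (2 * q.δ * (l * D)) ^ 2 := by ring
  obtain ⟨d1, d2⟩ := abs_le.1 hn
  obtain ⟨d3, d4⟩ := abs_le.1 dr'
  obtain ⟨d5, d6⟩ := abs_le.1 hDl
  have hly : l * D ≤ l * (4 * q.r) := mul_le_mul_of_nonneg_left hDr hl
  have a2 : q.lam ^ 2 * (Dx ^ 2 + Ds ^ 2 + Dy ^ 2) ≤ q.lam ^ 2 := by
    calc q.lam ^ 2 * (Dx ^ 2 + Ds ^ 2 + Dy ^ 2) ≤ q.lam ^ 2 * 1 :=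
          mul_le_mul_of_nonneg_left hg (sq_nonneg _)
      _ = q.lam ^ 2 := by ring
  have a3 : -(q.lam / q.δ) ≤ q.lam * Dl := by
    have b2 : q.lam * (-(1 / q.δ)) ≤ q.lam * Dl := mul_le_mul_of_nonneg_left d5 hlam
    have b4 : q.lam / q.δ = q.lam * (1 / q.δ) := by ring
    rw [b4]; linarith
  have a3' : q.lam * Dl ≤ q.lam / q.δ := by
    have b2 : q.lam * Dl ≤ q.lam * (1 / q.δ) := mul_le_mul_of_nonneg_left d6 hlam
    have b4 : q.lam / q.δ = q.lam * (1 / q.δ) := by ring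
    rw [b4]; linarith
  have t1 : 0 ≤ q.A1 + q.lam * (16 * q.r ^ 2 * m) - q.lam * (u * Dx + s * Ds + v * Dy)
      - q.lam ^ 2 * (Dx ^ 2 + Ds ^ 2 + Dy ^ 2) + q.lam * Dl := by
    have a1 : 0 ≤ q.lam * (16 * q.r ^ 2 * m - (u * Dx + s * Ds + v * Dy)) :=
      mul_nonneg hlam (by linarith)
    linarith
  have t2 : 0 ≤ q.A1 + q.lam * (16 * q.r ^ 2 * m) + q.lam * (u * Dx + s * Ds + v * Dy)
      - q.lam ^ 2 * (Dx ^ 2 + Ds ^ 2 + Dy ^ 2) - q.lam * Dl := by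
    have a1 : 0 ≤ q.lam * (16 * q.r ^ 2 * m + (u * Dx + s * Ds + v * Dy)) :=
      mul_nonneg hlam (by linarith)
    linarith
  have t3 : 0 ≤ q.A3 + q.ka * (8 * q.r * q.δ * l) + q.ka * (u * Rx + s * Rs + v * Ry)
      - q.ka ^ 2 * (Rx ^ 2 + Rs ^ 2 + Ry ^ 2) - q.ka * 6 := by
    have a1 : 0 ≤ q.ka * (8 * q.r * q.δ * l + (u * Rx + s * Rs + v * Ry)) := by
      apply mul_nonneg hka
      have : 2 * q.δ * (l * D) ≤ 2 * q.δ * (l * (4 * q.r)) :=
        mul_le_mul_of_nonneg_left hly (by positivity)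
      linarith
    have a2 : q.ka ^ 2 * (Rx ^ 2 + Rs ^ 2 + Ry ^ 2) ≤ q.ka ^ 2 * (4 * q.δ ^ 2) :=
      mul_le_mul_of_nonneg_left hR (sq_nonneg _)
    linarith
  have s1 := mul_nonneg p1.le t1
  have s2 := mul_nonneg p2.le t2
  have s3 := mul_nonneg p3.le t3
  have hDxx : Dxx = Dl - Dss - Dyy := by linarith
  have hRxx : Rxx = 6 - Rss - Ryy := by linarith
  rw [hDxx, hRxx]
  refine (add_nonneg (add_nonneg s1 s2) s3).trans (le_of_eq ?_)
  ring

end Pool.Agent.W5h63.WC
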