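import Pool.Agent.W5h63.WC.A3

/-! Evaluation of the barrier and the lower bound for the vorticity. -/

namespace Pool.Agent.W5h63.WC

open Set Filter Topology

/-- The parameters used in the proof. -/
noncomputable def qq (r δ T : ℝ) (L M : ℝ → ℝ) : Par where
  lam := r / (8 * T)
  ka := 1 / (64 * T)
  A1 := (r / (8 * T)) ^ 2 + (r / (8 * T)) / δ
  A3 := 4 * (1 / (64 * T)) ^ 2 * δ ^ 2 + 6 * (1 / (64 * T))
  r := r
  X0 := 3 / 4 * δ ^ 2
  δ := δ
  L := L
  M := M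

lemma exp_two {x y : ℝ} (h : x ≤ y + 1 / 2) : Real.exp x ≤ 2 * Real.exp y := by
  have h1 : Real.exp (1 / 2) ≤ 2 := by
    have h2 : Real.exp (1 / 2) ^ 2 = Real.exp 1 := by
      rw [← Real.exp_nat_mul]; norm_num
    have h3 := Real.exp_one_lt_d9
    have h4 : 0 < Real.exp (1 / 2) := Real.exp_pos _
    nlinarith
  calc Real.exp x ≤ Real.exp (y + 1 / 2) := Real.exp_le_exp.2 h
    _ = Real.exp (1 / 2) * Real.exp y := by rw [Real.exp_add, mul_comm]
    _ ≤ 2 * Real.exp y := mul_le_mul_of_nonneg_right h1 (Real.exp_pos _).le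

lemma eval {r δ T D R : ℝ} {L M : ℝ → ℝ} (hr : 0 < r) (hT : 0 < T)
    (hrδ : 8 * r ≤ δ) (hL : 32 * r * L T ≤ δ) (hM : 64 * r * M T ≤ 1)
    (hD1 : r ≤ D) (hD2 : D ≤ 2 * r) (hR : R ≤ δ ^ 2 / 4) :
    Gs (qq r δ T L M) T D R ≤ 6 * Real.exp (-(r ^ 2 / (32 * T))) := by
  have hδ : 0 < δ := by linarith
  have hlam : 0 < r / (8 * T) := by positivity
  have hka : 0 < 1 / (64 * T) := by positivity
  have hrM : 16 * r ^ 2 * M T ≤ r / 4 := by
    have := mul_le_mul_of_nonneg_left hM (by positivity : 0 ≤ r / 4)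
    nlinarith
  have eA : ((r / (8 * T)) ^ 2 + r / (8 * T) / δ) * T = r ^ 2 / (64 * T) + r / (8 * δ) := by
    field_simp
    ring
  have e8 : r / (8 * δ) ≤ 1 / 2 := by
    rw [div_le_iff₀ (by positivity)]
    linarith
  have e64 : r / (8 * T) * (r / 2) = r ^ 2 / (16 * T) := by
    field_simp
    ring
  have p0 : 0 < r ^ 2 / (64 * T) := by positivity
  have q1 : r ^ 2 / (16 * T) = 4 * (r ^ 2 / (64 * T)) := by field_simp; ring
  have q2 : r ^ 2 / (32 * T) = 2 * (r ^ 2 / (64 * T)) := by field_simp; ring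
  have g1 : G1 (qq r δ T L M) T D ≤ 2 * Real.exp (-(r ^ 2 / (32 * T))) := by
    unfold G1 lo
    apply exp_two
    simp only [qq]
    rw [eA, q2]
    have h1 : r / 2 ≤ D - (r / 4 + 16 * r ^ 2 * M T) := by linarith
    have h2 := mul_le_mul_of_nonneg_left h1 hlam.le
    rw [e64, q1] at h2
    linarith
  have g2 : G2 (qq r δ T L M) T D ≤ 2 * Real.exp (-(r ^ 2 / (32 * T))) := by
    unfold G2 hi
    apply exp_two
    simp only [qq]
    rw [eA, q2]
    have h1 : r / 2 ≤ 4 * r - 16 * r ^ 2 * M T - D := by linarith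
    have h2 := mul_le_mul_of_nonneg_left h1 hlam.le
    rw [e64, q1] at h2
    linarith
  have g3 : G3 (qq r δ T L M) T R ≤ 2 * Real.exp (-(r ^ 2 / (32 * T))) := by
    unfold G3 Xb
    apply exp_two
    simp only [qq]
    have h1 : δ ^ 2 / 4 ≤ 3 / 4 * δ ^ 2 - 8 * r * δ * L T - R := by
      have := mul_le_mul_of_nonneg_left hL (by positivity : 0 ≤ δ / 4)
      nlinarith
    have h2 := mul_le_mul_of_nonneg_left h1 hka.le
    have eB : (4 * (1 / (64 * T)) ^ 2 * δ ^ 2 + 6 * (1 / (64 * T))) * T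
        = δ ^ 2 / (1024 * T) + 3 / 32 := by
      field_simp
      ring
    have eC : 1 / (64 * T) * (δ ^ 2 / 4) = 4 * (δ ^ 2 / (1024 * T)) := by
      field_simp
      ring
    have eD : r ^ 2 / (64 * T) ≤ δ ^ 2 / (1024 * T) := by
      rw [div_le_div_iff₀ (by positivity) (by positivity)]
      have h64 : (8 * r) ^ 2 ≤ δ ^ 2 := pow_le_pow_left₀ (by positivity) hrδ 2
      nlinarith
    rw [eC] at h2
    rw [eB, q2]
    linarith
  unfold Gs
  linarith

/-- `F` is the primitive of `f ≥ 0` in `[0, T]` with `F 0 = 0`. -/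
structure Action (T : ℝ) (F f : ℝ → ℝ) : Prop where
  cont : ContinuousOn F (Icc 0 T)
  zero : F 0 = 0
  deriv : ∀ t ∈ Ioo 0 T, HasDerivAt F (f t) t
  nonneg : ∀ t ∈ Ioo 0 T, 0 ≤ f t

/-- Extension of a function on `[0, T]` by constants. -/
noncomputable def ext (T : ℝ) (F : ℝ → ℝ) : ℝ → ℝ := fun t => F (max 0 (min t T))

lemma ext_eq {T : ℝ} {F : ℝ → ℝ} {t : ℝ} (ht : t ∈ Icc 0 T) : ext T F t = F t := by
  unfold ext
  rw [min_eq_left ht.2, max_eq_right ht.1]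

lemma Action.ext_cont {T : ℝ} {F f : ℝ → ℝ} (h : Action T F f) (hT : 0 < T) :
    Continuous (ext T F) := by
  apply h.cont.comp_continuous (by fun_prop)
  intro t
  exact ⟨le_max_left _ _, max_le hT.le (min_le_right _ _)⟩

lemma Action.ext_deriv {T : ℝ} {F f : ℝ → ℝ} (h : Action T F f) :
    ∀ t ∈ Ioo 0 T, HasDerivAt (ext T F) (f t) t := by
  intro t ht
  refine (h.deriv t ht).congr_of_eventuallyEq ?_
  filter_upwards [Ioo_mem_nhds ht.1 ht.2] with s hs
  exact ext_eq ⟨hs.1.le, hs.2.le⟩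

lemma Action.mono {T : ℝ} {F f : ℝ → ℝ} (h : Action T F f) : MonotoneOn F (Icc 0 T) :=
  mono_of h.cont h.deriv h.nonneg

lemma Action.pos {T : ℝ} {F f : ℝ → ℝ} (h : Action T F f) {t : ℝ} (ht : t ∈ Icc 0 T) :
    0 ≤ F t := by
  have := h.mono (left_mem_Icc.2 (ht.1.trans ht.2)) ht ht.1
  rw [h.zero] at this
  exact this

/-- A classical trajectory in `(0, T) × (Ω ∩ B(c, δ))` near a no-slip wall, with the bounds used. -/
structure Traj (Ω : Set P) (c : P) (δ : ℝ) (d : P → ℝ) (T : ℝ) (u s v p w : E → ℝ)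
    (l m n : ℝ → ℝ) (K a : ℝ) : Prop where
  ns : IsNS (Ioo 0 T ×ˢ Reg Ω c δ) u s v p
  eq : ∀ z ∈ Ioo 0 T ×ˢ Reg Ω c δ, w z = vort u v z
  cont : ContinuousOn w (Icc 0 T ×ˢ Reg Ω c δ)
  speed : ∀ z ∈ Ioo 0 T ×ˢ Reg Ω c δ, u z ^ 2 + s z ^ 2 + v z ^ 2 ≤ (l z.1 * d z.2) ^ 2
  normal : ∀ z ∈ Ioo 0 T ×ˢ Reg Ω c δ,
    |u z * qd qx d z.2 + s z * qd qs d z.2 + v z * qd qy d z.2| ≤ m z.1 * d z.2 ^ 2
  stretching : ∀ z ∈ Ioo 0 T ×ˢ Reg Ω c δ, |stretch u s v z| ≤ n z.1 * d z.2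
  bound : ∀ z ∈ Ioo 0 T ×ˢ Reg Ω c δ, |w z| ≤ K
  initial : ∀ z ∈ Reg Ω c δ, a ≤ w (0, z)

theorem lower {Ω : Set P} {c : P} {δ : ℝ} {d : P → ℝ} (hd : IsWall Ω c δ d)
    {T : ℝ} (hT : 0 < T) {u s v p w : E → ℝ} {l m n L M N : ℝ → ℝ} {K a : ℝ}
    (hL : Action T L l) (hM : Action T M m) (hN : Action T N n)
    (h : Traj Ω c δ d T u s v p w l m n K a) (ha : 0 < a) (haK : a ≤ K)
    {r : ℝ} (hr : 0 < r) (hrδ : 8 * r ≤ δ) (hrL : 32 * r * L T ≤ δ) (hrM : 64 * r * M T ≤ 1)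
    {z : P} (hz : z ∈ Reg Ω c δ) (hz1 : dsq z c ≤ δ ^ 2 / 4) (hz2 : r ≤ d z)
    (hz3 : d z ≤ 2 * r) :
    a - 4 * r * N T - 12 * K * Real.exp (-(r ^ 2 / (32 * T))) ≤ w (T, z) := by
  have hδ := hd.radius_pos
  have hK0 : 0 < K := ha.trans_le haK
  have hOp : IsOpen (Ioo 0 T ×ˢ Reg Ω c δ) := isOpen_Ioo.prod (isOpen_Reg hd)
  obtain ⟨hw2', heq'⟩ := vorticity_eq hOp h.ns
  have hw2 : ContDiffOn ℝ ((2 : ℕ) : ℕ∞) w (Ioo 0 T ×ˢ Reg Ω c δ) := hw2'.congr h.eq
  have hpd : ∀ e, ∀ z ∈ Ioo 0 T ×ˢ Reg Ω c δ, pd e w z = pd e (vort u v) z :=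
    fun e z hz => pd_congr hOp h.eq hz e
  have hpd2 : ∀ e, ∀ z ∈ Ioo 0 T ×ˢ Reg Ω c δ, pd e (pd e w) z = pd e (pd e (vort u v)) z :=
    fun e z hz => pd_congr hOp (hpd e) hz e
  have heq : ∀ z ∈ Ioo 0 T ×ˢ Reg Ω c δ, pd et w z + u z * pd ex w z + s z * pd es w z
      + v z * pd ey w z = lap w z + stretch u s v z := by
    intro z hz
    have := heq' z hz
    unfold lap at this ⊢
    rw [hpd et z hz, hpd ex z hz, hpd es z hz, hpd ey z hz, hpd2 ex z hz, hpd2 es z hz,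
      hpd2 ey z hz]
    exact this
  have mem_T : ((T, z) : E) ∈ Icc 0 T ×ˢ Reg Ω c δ := ⟨right_mem_Icc.2 hT.le, hz⟩
  -- limit along t → T
  have hlim : Tendsto (fun t : ℝ => w (t, z)) (𝓝[Ioo 0 T] T) (𝓝 (w (T, z))) := by
    have h1 : ContinuousWithinAt w (Icc 0 T ×ˢ Reg Ω c δ) (T, z) := h.cont _ mem_T
    have h2 : Tendsto (fun t : ℝ => ((t, z) : E)) (𝓝[Ioo 0 T] T)
        (𝓝[Icc 0 T ×ˢ Reg Ω c δ] (T, z)) := by
      apply tendsto_nhdsWithin_of_tendsto_nhds_of_eventually_within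
      · exact ((Continuous.prodMk continuous_id continuous_const).tendsto T).mono_left
          nhdsWithin_le_nhds
      · filter_upwards [self_mem_nhdsWithin] with t ht using ⟨⟨ht.1.le, ht.2.le⟩, hz⟩
    exact h1.tendsto.comp h2
  have : (𝓝[Ioo 0 T] T).NeBot := by
    rw [← mem_closure_iff_nhdsWithin_neBot, closure_Ioo hT.ne]
    exact right_mem_Icc.2 hT.le
  have hTT : T ∈ Icc 0 T := right_mem_Icc.2 hT.le
  set q := qq r δ T (ext T L) (ext T M) with hq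
  have hLT : ext T L T = L T := ext_eq hTT
  have hMT : ext T M T = M T := ext_eq hTT
  have hG : Good Ω c d q l m T δ := by
    refine { wall := hd, hT := hT, hδ := rfl, lam0 := ?_, ka0 := ?_, r0 := hr, X0 := ?_,
             Lc := hL.ext_cont hT, L0 := ?_, Ld := hL.ext_deriv, l0 := hL.nonneg,
             Mc := hM.ext_cont hT, M0 := ?_, Md := hM.ext_deriv, m0 := hM.nonneg,
             hA1 := le_refl _, hA3 := le_refl _ }
    · simp only [hq, qq]; positivity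
    · simp only [hq, qq]; positivity
    · simp only [hq, qq]; nlinarith [sq_pos_of_pos hδ]
    · exact (ext_eq (left_mem_Icc.2 hT.le)).trans hL.zero
    · exact (ext_eq (left_mem_Icc.2 hT.le)).trans hM.zero
  have hbox : ∀ t ∈ Ioo 0 T, ((t, z) : E) ∈ Bx Ω c d q t := by
    intro t ht
    have ht' : t ∈ Icc 0 T := ⟨ht.1.le, ht.2.le⟩
    have hLt : L t ≤ L T := hL.mono ht' hTT ht.2.le
    have hMt : M t ≤ M T := hM.mono ht' hTT ht.2.le
    have k1 : 8 * r * δ * L t ≤ δ ^ 2 / 4 := by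
      have h1 : 8 * r * δ * L t ≤ 8 * r * δ * L T :=
        mul_le_mul_of_nonneg_left hLt (by positivity)
      have := mul_le_mul_of_nonneg_left hrL (by positivity : 0 ≤ δ / 4)
      nlinarith
    have k2 : 16 * r ^ 2 * M t ≤ r / 4 := by
      have h1 : 16 * r ^ 2 * M t ≤ 16 * r ^ 2 * M T :=
        mul_le_mul_of_nonneg_left hMt (by positivity)
      have := mul_le_mul_of_nonneg_left hrM (by positivity : 0 ≤ r / 4)
      nlinarith
    refine ⟨⟨ht.1.le, le_refl _⟩, subset_closure hz.1, ?_, ?_, ?_⟩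
    · simp only [Xb, hq, qq]
      rw [ext_eq ht']
      linarith [sq_nonneg δ]
    · simp only [lo, hq, qq]
      rw [ext_eq ht']
      linarith
    · simp only [hi, hq, qq]
      rw [ext_eq ht']
      linarith
  have hcmp : ∀ t ∈ Ioo 0 T,
      a ≤ w (t, z) + 2 * K * Gs q t (d z) (dsq z c) + 4 * r * ext T N t :=
    fun t ht => compare (N := ext T N) (n := n) hG h.cont hw2 heq h.speed h.normal h.stretching
      (hN.ext_cont hT) (fun t ht => by rw [ext_eq ht]; exact hN.pos ht) hN.nonneg hN.ext_deriv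
      h.bound haK hK0.le h.initial ht.2 (hbox t ht)
  have hGc : Continuous (fun t : ℝ => Gs q t (d z) (dsq z c)) := by
    have h1 := hG.Xc
    have h2 := hG.loc
    have h3 := hG.hic
    unfold Gs G1 G2 G3
    fun_prop
  have hfin : a ≤ w (T, z) + 2 * K * Gs q T (d z) (dsq z c) + 4 * r * ext T N T := by
    have hlimG : Tendsto (fun t : ℝ => w (t, z) + 2 * K * Gs q t (d z) (dsq z c)
        + 4 * r * ext T N t) (𝓝[Ioo 0 T] T)
        (𝓝 (w (T, z) + 2 * K * Gs q T (d z) (dsq z c) + 4 * r * ext T N T)) :=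
      (hlim.add (((hGc.tendsto T).mono_left nhdsWithin_le_nhds).const_mul (2 * K))).add
        ((((hN.ext_cont hT).tendsto T).mono_left nhdsWithin_le_nhds).const_mul (4 * r))
    refine ge_of_tendsto hlimG ?_
    filter_upwards [self_mem_nhdsWithin] with t ht using hcmp t ht
  have hev := eval (L := ext T L) (M := ext T M) (D := d z) (R := dsq z c) hr hT hrδ
    (by rw [hLT]; exact hrL) (by rw [hMT]; exact hrM) hz2 hz3 hz1
  have h2 := mul_le_mul_of_nonneg_left hev (by positivity : 0 ≤ 2 * K)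
  rw [ext_eq hTT] at hfin
  linarith

/-- The critical distance. -/
noncomputable def rho (T K a : ℝ) : ℝ := Real.sqrt (32 * T * Real.log (24 * K / a))

lemma rho_pos {T K a : ℝ} (hT : 0 < T) (ha : 0 < a) (haK : a ≤ K) : 0 < rho T K a := by
  apply Real.sqrt_pos.2
  have : 0 < Real.log (24 * K / a) := by
    apply Real.log_pos
    rw [lt_div_iff₀ ha]
    linarith
  positivity

lemma rho_exp {T K a : ℝ} (hT : 0 < T) (ha : 0 < a) (haK : a ≤ K) :
    12 * K * Real.exp (-(rho T K a ^ 2 / (32 * T))) = a / 2 := by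
  have h1 : 0 < 24 * K / a := by
    have := ha.trans_le haK
    positivity
  have hlog : 0 ≤ Real.log (24 * K / a) := by
    apply Real.log_nonneg
    rw [le_div_iff₀ ha]
    linarith
  have h2 : rho T K a ^ 2 / (32 * T) = Real.log (24 * K / a) := by
    unfold rho
    rw [Real.sq_sqrt (by positivity)]
    field_simp
  rw [h2, Real.exp_neg, Real.exp_log h1]
  have hK : K ≠ 0 := (ha.trans_le haK).ne'
  have ha' : a ≠ 0 := ha.ne'
  field_simp
  ring

/-- The cost of a null control. -/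
theorem cost {Ω : Set P} {c : P} {δ : ℝ} {d : P → ℝ} (hd : IsWall Ω c δ d)
    {T : ℝ} (hT : 0 < T) {u s v p w : E → ℝ} {l m n L M N : ℝ → ℝ} {K a : ℝ}
    (hL : Action T L l) (hM : Action T M m) (hN : Action T N n)
    (h : Traj Ω c δ d T u s v p w l m n K a) (ha : 0 < a) (haK : a ≤ K)
    (hρ : 8 * rho T K a ≤ δ)
    {z : P} (hz : z ∈ Reg Ω c δ) (hz1 : dsq z c ≤ δ ^ 2 / 4) (hz2 : rho T K a ≤ d z)
    (hz3 : d z ≤ 2 * rho T K a) (hw : w (T, z) ≤ 0) :
    δ < 32 * rho T K a * L T ∨ 1 < 64 * rho T K a * M T ∨ a < 16 * rho T K a * N T := by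
  by_contra hc
  push Not at hc
  obtain ⟨h1, h2, h3⟩ := hc
  have h4 := lower hd hT hL hM hN h ha haK (rho_pos hT ha haK) hρ h1 h2 hz hz1 hz2 hz3
  rw [rho_exp hT ha haK] at h4
  linarith

end Pool.Agent.W5h63.WC
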