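import Pool.Agent.W5h63.WC.A4

/-! Flat walls: the bounds used near the wall follow from bounds for the first and second
derivatives of the velocity. -/

namespace Pool.Agent.W5h63.WC

open Set Filter Topology

/-- The half-space above the wall through `c`. -/
def Half (c : P) : Set P := {z | c.2.2 < z.2.2}

/-- The distance to the flat wall. -/
def height (c : P) (z : P) : ℝ := z.2.2 - c.2.2

lemma height_fderiv (c z : P) :
    fderiv ℝ (height c) z = (ContinuousLinearMap.snd ℝ ℝ ℝ).comp (ContinuousLinearMap.snd ℝ ℝ (ℝ × ℝ)) := by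
  have h1 : HasFDerivAt (fun z : P => z.2.2)
      ((ContinuousLinearMap.snd ℝ ℝ ℝ).comp (ContinuousLinearMap.snd ℝ ℝ (ℝ × ℝ))) z :=
    ((ContinuousLinearMap.snd ℝ ℝ ℝ).comp (ContinuousLinearMap.snd ℝ ℝ (ℝ × ℝ))).hasFDerivAt
  exact (h1.sub_const c.2.2).fderiv

lemma height_x (c z : P) : qd qx (height c) z = 0 := by
  unfold qd; rw [height_fderiv]; rfl

lemma height_s (c z : P) : qd qs (height c) z = 0 := by
  unfold qd; rw [height_fderiv]; rfl

lemma height_y (c z : P) : qd qy (height c) z = 1 := by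
  unfold qd; rw [height_fderiv]; rfl

lemma isOpen_half (c : P) : IsOpen (Half c) :=
  isOpen_lt continuous_const (continuous_snd.comp continuous_snd)

lemma flat_isWall (c : P) {δ : ℝ} (hδ : 0 < δ) : IsWall (Half c) c δ (height c) := by
  have hcont : Continuous (height c) := by unfold height; fun_prop
  have hx : qd qx (height c) = fun _ => 0 := funext (height_x c)
  have hs : qd qs (height c) = fun _ => 0 := funext (height_s c)
  have hy : qd qy (height c) = fun _ => 1 := funext (height_y c)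
  refine { isOpen := isOpen_half c, radius_pos := hδ, cont := hcont.continuousOn, pos := ?_,
           zero := ?_, smooth := ?_, grad := ?_, lap := ?_ }
  · intro z hz
    have : c.2.2 < z.2.2 := hz.1
    unfold height; linarith
  · intro z hz _
    have h1 : z ∈ {z : P | c.2.2 = z.2.2} :=
      frontier_lt_subset_eq continuous_const (continuous_snd.comp continuous_snd) hz
    have h2 : c.2.2 = z.2.2 := h1
    unfold height; linarith
  · have : ContDiff ℝ 2 (height c) := by unfold height; fun_prop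
    exact this.contDiffOn
  · intro z _
    rw [height_x, height_s, height_y]
    norm_num
  · intro z _
    rw [hx, hs, hy]
    have e1 : qd qx (fun _ : P => (0:ℝ)) z = 0 := by unfold qd; simp
    have e2 : qd qs (fun _ : P => (0:ℝ)) z = 0 := by unfold qd; simp
    have e3 : qd qy (fun _ : P => (1:ℝ)) z = 0 := by unfold qd; simp
    rw [e1, e2, e3]
    simp only [add_zero, abs_zero]
    positivity

/-- A function on `(b, y]` with limit zero at `b` and derivative bounded by that of `B`. -/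
lemma le_of_deriv {φ φ' B B' : ℝ → ℝ} {b y : ℝ} (hby : b < y)
    (h : ∀ r ∈ Ioc b y, HasDerivAt φ (φ' r) r) (hB : ∀ r ∈ Ioc b y, HasDerivAt B (B' r) r)
    (hle : ∀ r ∈ Ioc b y, |φ' r| ≤ B' r) (h0 : Tendsto φ (𝓝[>] b) (𝓝 0))
    (hB0 : Tendsto B (𝓝[>] b) (𝓝 0)) : |φ y| ≤ B y := by
  have key : ∀ ψ ψ' : ℝ → ℝ, (∀ r ∈ Ioc b y, HasDerivAt ψ (ψ' r) r) →
      (∀ r ∈ Ioc b y, ψ' r ≤ B' r) → Tendsto ψ (𝓝[>] b) (𝓝 0) → ψ y ≤ B y := by
    intro ψ ψ' h1 h2 h3
    have hanti : AntitoneOn (fun r => ψ r - B r) (Ioc b y) := by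
      apply antitoneOn_of_deriv_nonpos (convex_Ioc b y)
      · intro r hr
        exact ((h1 r hr).sub (hB r hr)).continuousAt.continuousWithinAt
      · intro r hr
        rw [interior_Ioc] at hr
        exact ((h1 r ⟨hr.1, hr.2.le⟩).sub (hB r ⟨hr.1, hr.2.le⟩)).differentiableAt.differentiableWithinAt
      · intro r hr
        rw [interior_Ioc] at hr
        have := ((h1 r ⟨hr.1, hr.2.le⟩).sub (hB r ⟨hr.1, hr.2.le⟩)).deriv
        have h4 := h2 r ⟨hr.1, hr.2.le⟩
        have h5 : deriv (fun r => ψ r - B r) r = ψ' r - B' r := this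
        rw [h5]
        linarith
    have hlim : Tendsto (fun r => ψ r - B r) (𝓝[>] b) (𝓝 0) := by
      simpa using h3.sub hB0
    have h6 : ψ y - B y ≤ 0 := by
      refine ge_of_tendsto hlim ?_
      filter_upwards [Ioo_mem_nhdsGT hby] with r hr
      exact hanti ⟨hr.1, hr.2.le⟩ (right_mem_Ioc.2 hby) hr.2.le
    linarith
  rw [abs_le]
  constructor
  · have := key (fun r => -φ r) (fun r => -φ' r) (fun r hr => (h r hr).neg)
      (fun r hr => by linarith [(abs_le.1 (hle r hr)).1]) (by simpa using h0.neg)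
    linarith
  · exact key φ φ' h (fun r hr => (abs_le.1 (hle r hr)).2) h0

lemma lin_deriv (C b r : ℝ) : HasDerivAt (fun r => C * (r - b)) C r := by
  have := ((hasDerivAt_id r).sub_const b).const_mul C
  refine this.congr_deriv ?_
  simp

lemma sq_deriv (C b r : ℝ) : HasDerivAt (fun r => C * (r - b) ^ 2) (2 * C * (r - b)) r := by
  have := (((hasDerivAt_id r).sub_const b).pow 2).const_mul C
  refine this.congr_deriv ?_
  simp
  ring

lemma lin_tend (C b : ℝ) : Tendsto (fun r => C * (r - b)) (𝓝[>] b) (𝓝 0) := by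
  have h : Continuous fun r => C * (r - b) := by fun_prop
  have := h.tendsto b
  rw [sub_self, mul_zero] at this
  exact this.mono_left nhdsWithin_le_nhds

lemma sq_tend (C b : ℝ) : Tendsto (fun r => C * (r - b) ^ 2) (𝓝[>] b) (𝓝 0) := by
  have h : Continuous fun r => C * (r - b) ^ 2 := by fun_prop
  have := h.tendsto b
  rw [sub_self, zero_pow two_ne_zero, mul_zero] at this
  exact this.mono_left nhdsWithin_le_nhds

/-- `F` and its tangential derivatives tend to zero at the flat wall through `c`, and the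
derivatives of `F` and the `y`-derivatives of the tangential derivatives of `F` are bounded by `G`
and `H`. -/
structure NoSlip (c : P) (δ T G H : ℝ) (F : E → ℝ) : Prop where
  wall : ∀ t ∈ Ioo 0 T, ∀ x s : ℝ, (x - c.1) ^ 2 + (s - c.2.1) ^ 2 < δ ^ 2 →
    Tendsto (fun y => F (t, x, s, y)) (𝓝[>] c.2.2) (𝓝 0) ∧
    Tendsto (fun y => pd ex F (t, x, s, y)) (𝓝[>] c.2.2) (𝓝 0) ∧
    Tendsto (fun y => pd es F (t, x, s, y)) (𝓝[>] c.2.2) (𝓝 0)
  grad : ∀ z ∈ Ioo 0 T ×ˢ Reg (Half c) c δ, |pd ex F z| ≤ G ∧ |pd es F z| ≤ G ∧ |pd ey F z| ≤ G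
  hess : ∀ z ∈ Ioo 0 T ×ˢ Reg (Half c) c δ, |pd ey (pd ex F) z| ≤ H ∧ |pd ey (pd es F) z| ≤ H

lemma seg {c : P} {δ x s y r : ℝ} (hz : ((x, s, y) : P) ∈ Reg (Half c) c δ)
    (hr : r ∈ Ioc c.2.2 y) : ((x, s, r) : P) ∈ Reg (Half c) c δ := by
  obtain ⟨h1, h2⟩ := hz
  refine ⟨hr.1, ?_⟩
  unfold dsq at h2 ⊢
  simp only at h2 ⊢
  have h3 : (r - c.2.2) ^ 2 ≤ (y - c.2.2) ^ 2 :=
    pow_le_pow_left₀ (by linarith [hr.1]) (by linarith [hr.2]) 2
  linarith

lemma tang {c : P} {δ x s y : ℝ} (hz : ((x, s, y) : P) ∈ Reg (Half c) c δ) :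
    (x - c.1) ^ 2 + (s - c.2.1) ^ 2 < δ ^ 2 := by
  have h2 := hz.2
  unfold dsq at h2
  simp only at h2
  linarith [sq_nonneg (y - c.2.2)]

lemma NoSlip.lin {c : P} {δ T G H : ℝ} {F : E → ℝ} (h : NoSlip c δ T G H F)
    (hF : ContDiffOn ℝ 3 F (Ioo 0 T ×ˢ Reg (Half c) c δ)) {t x s y : ℝ}
    (hz : ((t, x, s, y) : E) ∈ Ioo 0 T ×ˢ Reg (Half c) c δ) :
    |F (t, x, s, y)| ≤ G * (y - c.2.2) ∧ |pd ex F (t, x, s, y)| ≤ H * (y - c.2.2) ∧
      |pd es F (t, x, s, y)| ≤ H * (y - c.2.2) := by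
  have hδ : IsOpen (Reg (Half c) c δ) := by
    have : Reg (Half c) c δ = Half c ∩ {z | dsq z c < δ ^ 2} := rfl
    rw [this]
    exact (isOpen_half c).inter (isOpen_lt (dsq_cont c) continuous_const)
  have hO : IsOpen (Ioo (0:ℝ) T ×ˢ Reg (Half c) c δ) := isOpen_Ioo.prod hδ
  have hF3 : ContDiffOn ℝ ((3 : ℕ) : ℕ∞) F (Ioo 0 T ×ˢ Reg (Half c) c δ) := by exact_mod_cast hF
  have hby : c.2.2 < y := hz.2.1
  have hmem : ∀ r ∈ Ioc c.2.2 y, ((t, x, s, r) : E) ∈ Ioo 0 T ×ˢ Reg (Half c) c δ :=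
    fun r hr => ⟨hz.1, seg hz.2 hr⟩
  have hw := h.wall t hz.1 x s (tang hz.2)
  refine ⟨?_, ?_, ?_⟩
  · exact le_of_deriv (φ := fun r => F (t, x, s, r)) hby
      (fun r hr => slice_y (diffAt hO (by norm_num) hF3 (hmem r hr)))
      (fun r _ => lin_deriv G c.2.2 r) (fun r hr => (h.grad _ (hmem r hr)).2.2) hw.1
      (lin_tend G c.2.2)
  · exact le_of_deriv (φ := fun r => pd ex F (t, x, s, r)) hby
      (fun r hr => slice_y (diffAt hO (n := 2) (by norm_num) (pd_contDiffOn hO hF3 ex) (hmem r hr)))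
      (fun r _ => lin_deriv H c.2.2 r) (fun r hr => (h.hess _ (hmem r hr)).1) hw.2.1
      (lin_tend H c.2.2)
  · exact le_of_deriv (φ := fun r => pd es F (t, x, s, r)) hby
      (fun r hr => slice_y (diffAt hO (n := 2) (by norm_num) (pd_contDiffOn hO hF3 es) (hmem r hr)))
      (fun r _ => lin_deriv H c.2.2 r) (fun r hr => (h.hess _ (hmem r hr)).2) hw.2.2
      (lin_tend H c.2.2)

/-- A classical trajectory near a flat no-slip wall, up to the wall of class `C²` in the sense used,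
with bounds `G`, `H` for the first and second derivatives of the velocity. -/
structure FlatTraj (c : P) (δ T : ℝ) (u s v p w : E → ℝ) (G H a : ℝ) : Prop where
  ns : IsNS (Ioo 0 T ×ˢ Reg (Half c) c δ) u s v p
  eq : ∀ z ∈ Ioo 0 T ×ˢ Reg (Half c) c δ, w z = vort u v z
  cont : ContinuousOn w (Icc 0 T ×ˢ Reg (Half c) c δ)
  u0 : NoSlip c δ T G H u
  s0 : NoSlip c δ T G H s
  v0 : NoSlip c δ T G H v
  initial : ∀ z ∈ Reg (Half c) c δ, a ≤ w (0, z)

lemma const_action {T C : ℝ} (hC : 0 ≤ C) : Action T (fun t => C * t) (fun _ => C) where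
  cont := by fun_prop
  zero := by simp
  deriv := fun t _ => by
    have := (hasDerivAt_id t).const_mul C
    refine this.congr_deriv ?_
    simp
  nonneg := fun _ _ => hC

lemma FlatTraj.traj {c : P} {δ T : ℝ} {u s v p w : E → ℝ} {G H a : ℝ} (hG : 0 ≤ G)
    (h : FlatTraj c δ T u s v p w G H a) {n : ℝ}
    (hn : ∀ z ∈ Ioo 0 T ×ˢ Reg (Half c) c δ, |stretch u s v z| ≤ n * height c z.2) :
    Traj (Half c) c δ (height c) T u s v p w (fun _ => 2 * G) (fun _ => H) (fun _ => n)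
      (2 * G) a := by
  have hδ : IsOpen (Reg (Half c) c δ) := by
    have : Reg (Half c) c δ = Half c ∩ {z | dsq z c < δ ^ 2} := rfl
    rw [this]
    exact (isOpen_half c).inter (isOpen_lt (dsq_cont c) continuous_const)
  have hO : IsOpen (Ioo (0:ℝ) T ×ˢ Reg (Half c) c δ) := isOpen_Ioo.prod hδ
  refine { ns := h.ns, eq := h.eq, cont := h.cont, speed := ?_, normal := ?_, stretching := hn,
           bound := ?_, initial := h.initial }
  · rintro ⟨t, x, r, y⟩ hz
    have e1 := (h.u0.lin h.ns.smooth_u hz).1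
    have e2 := (h.s0.lin h.ns.smooth_s hz).1
    have e3 := (h.v0.lin h.ns.smooth_v hz).1
    have f1 := sq_le_sq' (abs_le.1 e1).1 (abs_le.1 e1).2
    have f2 := sq_le_sq' (abs_le.1 e2).1 (abs_le.1 e2).2
    have f3 := sq_le_sq' (abs_le.1 e3).1 (abs_le.1 e3).2
    show _ ≤ (2 * G * (y - c.2.2)) ^ 2
    have : (2 * G * (y - c.2.2)) ^ 2 = 4 * (G * (y - c.2.2)) ^ 2 := by ring
    rw [this]
    linarith [sq_nonneg (G * (y - c.2.2))]
  · rintro ⟨t, x, r, y⟩ hz
    rw [height_x, height_s, height_y, mul_zero, mul_zero, mul_one, zero_add, zero_add]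
    show |v (t, x, r, y)| ≤ H * (y - c.2.2) ^ 2
    have hby : c.2.2 < y := hz.2.1
    have hmem : ∀ r' ∈ Ioc c.2.2 y, ((t, x, r, r') : E) ∈ Ioo 0 T ×ˢ Reg (Half c) c δ :=
      fun r' hr => ⟨hz.1, seg hz.2 hr⟩
    have hv3 : ContDiffOn ℝ ((3 : ℕ) : ℕ∞) v (Ioo 0 T ×ˢ Reg (Half c) c δ) := by
      exact_mod_cast h.ns.smooth_v
    refine le_of_deriv (φ := fun r' => v (t, x, r, r')) hby
      (fun r' hr => slice_y (diffAt hO (by norm_num) hv3 (hmem r' hr)))
      (fun r' _ => sq_deriv H c.2.2 r') (fun r' hr => ?_) (h.v0.wall t hz.1 x r (tang hz.2)).1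
      (sq_tend H c.2.2)
    have d1 := h.ns.div _ (hmem r' hr)
    have d2 := abs_le.1 (h.u0.lin h.ns.smooth_u (hmem r' hr)).2.1
    have d3 := abs_le.1 (h.s0.lin h.ns.smooth_s (hmem r' hr)).2.2
    rw [abs_le]
    constructor <;> linarith [d2.1, d2.2, d3.1, d3.2]
  · intro z hz
    rw [h.eq z hz]
    unfold vort
    have e1 := abs_le.1 (h.v0.grad z hz).1
    have e2 := abs_le.1 (h.u0.grad z hz).2.2
    rw [abs_le]
    constructor <;> linarith [e1.1, e1.2, e2.1, e2.2]

lemma FlatTraj.stretch_le {c : P} {δ T : ℝ} {u s v p w : E → ℝ} {G H a : ℝ} (hG : 0 ≤ G)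
    (h : FlatTraj c δ T u s v p w G H a) :
    ∀ z ∈ Ioo 0 T ×ˢ Reg (Half c) c δ, |stretch u s v z| ≤ 4 * G * H * height c z.2 := by
  rintro ⟨t, x, r, y⟩ hz
  show _ ≤ 4 * G * H * (y - c.2.2)
  have a1 := (h.s0.lin h.ns.smooth_s hz).2.2
  have a2 := (h.s0.lin h.ns.smooth_s hz).2.1
  have a3 := (h.u0.lin h.ns.smooth_u hz).2.2
  have b1 := (h.v0.grad _ hz).1
  have b2 := (h.u0.grad _ hz).2.2
  have b3 := (h.v0.grad _ hz).2.1
  have b4 := (h.s0.grad _ hz).2.2
  have hw : |vort u v (t, x, r, y)| ≤ 2 * G := by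
    unfold vort
    have e1 := abs_le.1 b1
    have e2 := abs_le.1 b2
    rw [abs_le]
    constructor <;> linarith [e1.1, e1.2, e2.1, e2.2]
  have hH : 0 ≤ H * (y - c.2.2) := (abs_nonneg _).trans a1
  have c1 : |pd es s (t, x, r, y) * vort u v (t, x, r, y)| ≤ H * (y - c.2.2) * (2 * G) := by
    rw [abs_mul]; exact mul_le_mul a1 hw (abs_nonneg _) hH
  have c2 : |pd ex s (t, x, r, y) * pd es v (t, x, r, y)| ≤ H * (y - c.2.2) * G := by
    rw [abs_mul]; exact mul_le_mul a2 b3 (abs_nonneg _) hH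
  have c3 : |pd ey s (t, x, r, y) * pd es u (t, x, r, y)| ≤ G * (H * (y - c.2.2)) := by
    rw [abs_mul]; exact mul_le_mul b4 a3 (abs_nonneg _) hG
  unfold stretch
  rw [abs_le] at c1 c2 c3 ⊢
  constructor <;> linarith [c1.1, c1.2, c2.1, c2.2, c3.1, c3.2]

/-- The cost near a flat wall, in terms of the suprema of the first and second derivatives. -/
theorem flat_cost {c : P} {δ T : ℝ} (hδ : 0 < δ) (hT : 0 < T) {u s v p w : E → ℝ} {G H a : ℝ}
    (h : FlatTraj c δ T u s v p w G H a) (ha : 0 < a) (haG : a ≤ 2 * G)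
    (hρ : 8 * rho T (2 * G) a ≤ δ) (hw : ∀ z ∈ Reg (Half c) c δ, w (T, z) ≤ 0) :
    (δ < 64 * rho T (2 * G) a * G * T ∨ a < 128 * rho T (2 * G) a * G * H * T) ∧
    ((∀ z ∈ Ioo 0 T ×ˢ Reg (Half c) c δ, s z = 0 ∧ pd es u z = 0 ∧ pd es v z = 0) →
      δ < 64 * rho T (2 * G) a * G * T ∨ 1 < 64 * rho T (2 * G) a * H * T) := by
  have hG : 0 < G := by linarith
  have hr := rho_pos hT ha haG
  set ρ := rho T (2 * G) a with hρd
  have hz : ((c.1, c.2.1, c.2.2 + ρ) : P) ∈ Reg (Half c) c δ := by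
    refine ⟨?_, ?_⟩
    · show c.2.2 < c.2.2 + ρ
      linarith
    · unfold dsq
      simp only
      have : (8 * ρ) ^ 2 ≤ δ ^ 2 := pow_le_pow_left₀ (by positivity) hρ 2
      nlinarith [sq_pos_of_pos hr]
  have hz1 : dsq ((c.1, c.2.1, c.2.2 + ρ) : P) c ≤ δ ^ 2 / 4 := by
    unfold dsq
    simp only
    have : (8 * ρ) ^ 2 ≤ δ ^ 2 := pow_le_pow_left₀ (by positivity) hρ 2
    nlinarith [sq_pos_of_pos hr]
  have hh : height c ((c.1, c.2.1, c.2.2 + ρ) : P) = ρ := by
    unfold height; simp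
  have hH : 0 ≤ H := by
    have hm : ((T / 2, c.1, c.2.1, c.2.2 + ρ) : E) ∈ Ioo 0 T ×ˢ Reg (Half c) c δ :=
      ⟨⟨by positivity, by linarith⟩, hz⟩
    exact (abs_nonneg _).trans (h.u0.hess _ hm).1
  constructor
  · have h1 := cost (flat_isWall c hδ) hT (const_action (by positivity : 0 ≤ 2 * G))
      (const_action hH) (const_action (by positivity : 0 ≤ 4 * G * H))
      (h.traj hG.le (h.stretch_le hG.le)) ha haG hρ hz hz1
      (by rw [hh]) (by rw [hh]; linarith) (hw _ hz)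
    rw [← hρd] at h1
    rcases h1 with h1 | h1 | h1
    · left; linarith
    · right
      have h2 : G * 1 < G * (64 * ρ * (H * T)) := mul_lt_mul_of_pos_left h1 hG
      nlinarith
    · right
      have h2 : 0 ≤ ρ * G * H * T := by positivity
      nlinarith
  · intro hp
    have hst : ∀ z ∈ Ioo 0 T ×ˢ Reg (Half c) c δ, |stretch u s v z| ≤ 0 * height c z.2 := by
      intro z hz
      have hO : IsOpen (Ioo (0:ℝ) T ×ˢ Reg (Half c) c δ) :=
        isOpen_Ioo.prod (isOpen_Reg (flat_isWall c hδ))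
      have e1 : pd es s z = 0 := by
        rw [pd_congr hO (fun z hz => (hp z hz).1) hz es]
        unfold pd; simp
      unfold stretch
      rw [e1, (hp z hz).2.1, (hp z hz).2.2]
      simp
    have h1 := cost (flat_isWall c hδ) hT (const_action (by positivity : 0 ≤ 2 * G))
      (const_action hH) (const_action le_rfl) (h.traj hG.le hst) ha haG hρ hz hz1
      (by rw [hh]) (by rw [hh]; linarith) (hw _ hz)
    rw [← hρd] at h1
    rcases h1 with h1 | h1 | h1
    · left; linarith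
    · right; linarith
    · exfalso
      linarith [mul_zero (16 * ρ), zero_mul T]

end Pool.Agent.W5h63.WC
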