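import Mathlib

/-! Null control of the three-dimensional Navier-Stokes equations near an uncontrolled no-slip wall:
definitions. Points of space-time are `(t, x, s, y)`. -/

namespace Pool.Agent.W5h63.WC

open Set

/-- Space-time `(t, x, s, y)`. -/
abbrev E := ℝ × ℝ × ℝ × ℝ

/-- Space `(x, s, y)`. -/
abbrev P := ℝ × ℝ × ℝ

/-- The directions of `t`, `x`, `s`, `y` in space-time. -/
def et : E := (1, 0, 0, 0)
def ex : E := (0, 1, 0, 0)
def es : E := (0, 0, 1, 0)
def ey : E := (0, 0, 0, 1)

/-- The partial derivative of `F` in the direction `e`. -/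
noncomputable def pd (e : E) (F : E → ℝ) : E → ℝ := fun z => fderiv ℝ F z e

/-- The directions of `x`, `s`, `y` in space. -/
def qx : P := (1, 0, 0)
def qs : P := (0, 1, 0)
def qy : P := (0, 0, 1)

/-- The partial derivative of `f` in the direction `e`, in space. -/
noncomputable def qd (e : P) (f : P → ℝ) : P → ℝ := fun z => fderiv ℝ f z e

/-- The Laplace operator in the space variables of a function on space-time. -/
noncomputable def lap (F : E → ℝ) (z : E) : ℝ :=
  pd ex (pd ex F) z + pd es (pd es F) z + pd ey (pd ey F) z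

/-- The squared Euclidean distance in space. -/
def dsq (z c : P) : ℝ := (z.1 - c.1) ^ 2 + (z.2.1 - c.2.1) ^ 2 + (z.2.2 - c.2.2) ^ 2

/-- The part of `Ω` in the open Euclidean ball with centre `c` and radius `δ`. -/
def Reg (Ω : Set P) (c : P) (δ : ℝ) : Set P := {z ∈ Ω | dsq z c < δ ^ 2}

/-- `d` is a distance-like function of the boundary of the open set `Ω` inside the ball `B(c,δ)`:
continuous up to the boundary, `d > 0` in `Ω`, `d = 0` on `∂Ω`, `C²` in `Ω` with `|∇d| ≤ 1` and
`|Δd| ≤ 1/δ` (everything inside the ball). -/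
structure IsWall (Ω : Set P) (c : P) (δ : ℝ) (d : P → ℝ) : Prop where
  isOpen : IsOpen Ω
  radius_pos : 0 < δ
  cont : ContinuousOn d {z ∈ closure Ω | dsq z c < δ ^ 2}
  pos : ∀ z ∈ Reg Ω c δ, 0 < d z
  zero : ∀ z ∈ frontier Ω, dsq z c < δ ^ 2 → d z = 0
  smooth : ContDiffOn ℝ 2 d (Reg Ω c δ)
  grad : ∀ z ∈ Reg Ω c δ, qd qx d z ^ 2 + qd qs d z ^ 2 + qd qy d z ^ 2 ≤ 1
  lap : ∀ z ∈ Reg Ω c δ, |qd qx (qd qx d) z + qd qs (qd qs d) z + qd qy (qd qy d) z| ≤ 1 / δ

/-- `(u, s, v)` is the velocity and `p` the pressure of a classical solution (`C³`, pressure `C²`)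
of the Navier-Stokes equations with unit viscosity in the open set `O` of space-time. -/
structure IsNS (O : Set E) (u s v p : E → ℝ) : Prop where
  smooth_u : ContDiffOn ℝ 3 u O
  smooth_s : ContDiffOn ℝ 3 s O
  smooth_v : ContDiffOn ℝ 3 v O
  smooth_p : ContDiffOn ℝ 2 p O
  eq_u : ∀ z ∈ O, pd et u z + u z * pd ex u z + s z * pd es u z + v z * pd ey u z
    - lap u z + pd ex p z = 0
  eq_s : ∀ z ∈ O, pd et s z + u z * pd ex s z + s z * pd es s z + v z * pd ey s z
    - lap s z + pd es p z = 0
  eq_v : ∀ z ∈ O, pd et v z + u z * pd ex v z + s z * pd es v z + v z * pd ey v z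
    - lap v z + pd ey p z = 0
  div : ∀ z ∈ O, pd ex u z + pd es s z + pd ey v z = 0

/-- The component `v_x - u_y` of the vorticity. -/
noncomputable def vort (u v : E → ℝ) (z : E) : ℝ := pd ex v z - pd ey u z

/-- The stretching term in the equation of the component `v_x - u_y` of the vorticity (it vanishes
for plane flows, `s = 0` and `u`, `v` independent of the second space variable). -/
noncomputable def stretch (u s v : E → ℝ) (z : E) : ℝ :=
  pd es s z * vort u v z - pd ex s z * pd es v z + pd ey s z * pd es u z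

end Pool.Agent.W5h63.WC
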